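import Mathlib
import Pool.Agent.Y957.MC.Spec

/-!
MC-FLW3 (helper312 for helper957, MP_4d8f14_an): times of a flow, every bounded sequence of weights: from smooth
coboundaries (FLW1), the error term (FLW2) and the ergodic theorem for flows (FLWB) to FLW.
-/

set_option autoImplicit false

namespace Pool.Agent.Y312.MC

set_option linter.unusedSectionVars false

open MeasureTheory Filter Finset Pool.Agent.Y957.MC

universe u

section basics

variable {X : Type u} [mX : MeasurableSpace X] {μ : Measure X} [IsProbabilityMeasure μ] {τ : ℝ → X → X}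

theorem flowInv_le (τ : ℝ → X → X) : flowInv τ ≤ mX :=
  (iInf_le _ 0).trans (MeasurableSpace.invariants_le _)

theorem inv_of_meas {f : X → ℝ} (hf : Measurable[flowInv τ] f) (t : ℝ) (x : X) : f (τ t x) = f x := by
  have h : Measurable[MeasurableSpace.invariants (τ t)] f := hf.mono (iInf_le _ t) le_rfl
  exact congrFun (MeasurableSpace.comp_eq_of_measurable_invariants h) x

theorem inv_set {s : Set X} (hs : MeasurableSet[flowInv τ] s) (t : ℝ) : τ t ⁻¹' s = s :=
  ((iInf_le _ t : flowInv τ ≤ MeasurableSpace.invariants (τ t)) s hs).2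

theorem meas_orb (hF : IsFlow μ τ) {h : X → ℝ} (hh : Measurable h) (x : X) : Measurable fun r => h (τ r x) :=
  hh.comp (hF.meas.comp (measurable_id.prodMk measurable_const))

theorem ii_orb (hF : IsFlow μ τ) {h : X → ℝ} (hh : Measurable h) {C : ℝ} (hC : ∀ x, |h x| ≤ C) (x : X) (a b : ℝ) :
    IntervalIntegrable (fun r => h (τ r x)) volume a b := by
  rw [intervalIntegrable_iff]
  exact Measure.integrableOn_of_bounded (M := C) (by simp) (meas_orb hF hh x).aestronglyMeasurable
    (ae_of_all _ fun r => hC _)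

theorem smo_meas (hF : IsFlow μ τ) {h : X → ℝ} (hh : Measurable h) {δ : ℝ} (hδ : 0 < δ) :
    Measurable (smo τ h δ) := by
  unfold smo
  simp only [intervalIntegral.integral_of_le hδ.le]
  have : StronglyMeasurable (fun p : X × ℝ => h (τ p.2 p.1)) :=
    (hh.comp (hF.meas.comp measurable_swap)).stronglyMeasurable
  exact (this.integral_prod_right' (ν := volume.restrict (Set.Ioc 0 δ))).measurable.const_mul _

theorem smo_bdd {h : X → ℝ} {C : ℝ} (hC : ∀ x, |h x| ≤ C) {δ : ℝ} (hδ : 0 < δ) (x : X) : |smo τ h δ x| ≤ C := by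
  unfold smo
  have h1 : ‖∫ r in (0 : ℝ)..δ, h (τ r x)‖ ≤ C * |δ - 0| :=
    intervalIntegral.norm_integral_le_of_norm_le_const fun r _ => hC _
  rw [abs_mul, abs_of_pos (by positivity : 0 < 1 / δ)]
  rw [Real.norm_eq_abs, sub_zero, abs_of_pos hδ] at h1
  calc 1 / δ * |∫ r in (0 : ℝ)..δ, h (τ r x)| ≤ 1 / δ * (C * δ) := by gcongr
    _ = C := by field_simp

theorem int_bdd {h : X → ℝ} (hh : Measurable h) {C : ℝ} (hC : ∀ x, |h x| ≤ C) : Integrable h μ :=
  Integrable.of_bound hh.aestronglyMeasurable C (ae_of_all _ hC)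

theorem smo_shift (hF : IsFlow μ τ) (h : X → ℝ) (δ u : ℝ) (x : X) :
    smo τ h δ (τ u x) = (1 / δ) * ∫ r in u..u + δ, h (τ r x) := by
  unfold smo
  congr 1
  have : ∀ r, h (τ r (τ u x)) = h (τ (r + u) x) := fun r => by rw [hF.add]
  simp only [this]
  rw [intervalIntegral.integral_comp_add_right (fun r => h (τ r x)) u, zero_add, add_comm δ u]

/-- Lebesgue differentiation along an orbit -/
theorem leb (hF : IsFlow μ τ) {h : X → ℝ} (hh : Measurable h) {C : ℝ} (hC : ∀ x, |h x| ≤ C) (x : X) :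
    ∀ᵐ u : ℝ, Tendsto (fun j : ℕ => smo τ h (1 / ((j : ℝ) + 1)) (τ u x)) atTop (nhds (h (τ u x))) := by
  have hl : LocallyIntegrable (fun r => h (τ r x)) volume := by
    rw [locallyIntegrable_iff]
    intro K hK
    exact Measure.integrableOn_of_bounded (M := C) hK.measure_lt_top.ne (meas_orb hF hh x).aestronglyMeasurable
      (ae_of_all _ fun r => hC _)
  filter_upwards [_root_.LocallyIntegrable.ae_hasDerivAt_integral hl] with u hu
  have h1 := (hu u).tendsto_slope_zero_right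
  have h2 : Tendsto (fun j : ℕ => 1 / ((j : ℝ) + 1)) atTop (nhdsWithin 0 (Set.Ioi 0)) := by
    rw [tendsto_nhdsWithin_iff]
    exact ⟨tendsto_one_div_add_atTop_nhds_zero_nat, Eventually.of_forall fun j => by
      simp only [Set.mem_Ioi]; positivity⟩
  have h3 := h1.comp h2
  refine h3.congr fun j => ?_
  simp only [Function.comp, smul_eq_mul, intervalIntegral.integral_same, sub_zero]
  rw [smo_shift hF, one_div (1 / ((j : ℝ) + 1))]

theorem int_comp (hF : IsFlow μ τ) {h : X → ℝ} (hh : Measurable h) (u : ℝ) : ∫ x, h (τ u x) ∂μ = ∫ x, h x ∂μ := by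
  have := integral_map (hF.mp u).measurable.aemeasurable (f := h) (μ := μ)
    (by rw [(hF.mp u).map_eq]; exact hh.aestronglyMeasurable)
  rw [← this, (hF.mp u).map_eq]

/-- (a) -/
theorem smo_L1 (hF : IsFlow μ τ) {h : X → ℝ} (hh : Measurable h) {C : ℝ} (hC : ∀ x, |h x| ≤ C) :
    Tendsto (fun j : ℕ => ∫ x, |h x - smo τ h (1 / ((j : ℝ) + 1)) x| ∂μ) atTop (nhds 0) := by
  have hpos : ∀ j : ℕ, 0 < 1 / ((j : ℝ) + 1) := fun j => by positivity
  have hC0 : 0 ≤ C := by
    have : Nonempty X := nonempty_of_isProbabilityMeasure μ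
    exact (abs_nonneg _).trans (hC (Classical.choice this))
  set Φ : ℕ → X → ℝ := fun j x => |h x - smo τ h (1 / ((j : ℝ) + 1)) x| with hΦ
  have hΦm : ∀ j, Measurable (Φ j) := fun j => by
    have := smo_meas hF hh (hpos j)
    exact (hh.sub this).abs
  have hΦb : ∀ j x, |Φ j x| ≤ 2 * C := fun j x => by
    rw [hΦ]; simp only [abs_abs]
    have h1 := hC x
    have h2 := smo_bdd (τ := τ) hC (hpos j) x
    calc _ ≤ |h x| + |smo τ h (1 / ((j : ℝ) + 1)) x| := abs_sub _ _
      _ ≤ _ := by linarith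
  have key : ∀ j, ∫ x, Φ j x ∂μ = ∫ x, (∫ u in Set.Icc (0 : ℝ) 1, Φ j (τ u x)) ∂μ := by
    intro j
    have hsw : ∫ x, (∫ u in Set.Icc (0 : ℝ) 1, Φ j (τ u x)) ∂μ =
        ∫ u in Set.Icc (0 : ℝ) 1, (∫ x, Φ j (τ u x) ∂μ) := by
      apply integral_integral_swap
      refine Integrable.of_bound (C := 2 * C) ?_ (ae_of_all _ fun q => hΦb j _)
      exact ((hΦm j).comp (hF.meas.comp measurable_swap)).aestronglyMeasurable
    rw [hsw]
    simp only [int_comp hF (hΦm j)]
    simp
  have key' : (fun j : ℕ => ∫ x, |h x - smo τ h (1 / ((j : ℝ) + 1)) x| ∂μ) =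
      fun j => ∫ x, (∫ u in Set.Icc (0 : ℝ) 1, Φ j (τ u x)) ∂μ := funext key
  rw [key']
  have hz : ∫ x : X, (∫ u in Set.Icc (0 : ℝ) 1, (0 : ℝ)) ∂μ = 0 := by simp
  suffices hsu : Tendsto (fun j => ∫ x, (∫ u in Set.Icc (0 : ℝ) 1, Φ j (τ u x)) ∂μ) atTop
      (nhds (∫ x : X, (∫ u in Set.Icc (0 : ℝ) 1, (0 : ℝ)) ∂μ)) by rwa [hz] at hsu
  refine tendsto_integral_of_dominated_convergence (fun _ => 2 * C) ?_ (integrable_const _) ?_ ?_
  · intro j
    have : StronglyMeasurable (fun q : X × ℝ => Φ j (τ q.2 q.1)) :=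
      ((hΦm j).comp (hF.meas.comp measurable_swap)).stronglyMeasurable
    exact (this.integral_prod_right' (ν := volume.restrict (Set.Icc 0 1))).aestronglyMeasurable
  · intro j
    refine ae_of_all _ fun x => ?_
    refine (norm_integral_le_of_norm_le_const (C := 2 * C) (ae_of_all _ fun u => hΦb j _)).trans ?_
    simp
  · refine ae_of_all _ fun x => ?_
    refine tendsto_integral_of_dominated_convergence (fun _ => 2 * C) ?_ (integrable_const _) ?_ ?_
    · intro j
      exact (meas_orb hF (hΦm j) x).aestronglyMeasurable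
    · intro j
      exact ae_of_all _ fun u => hΦb j _
    · filter_upwards [ae_restrict_of_ae (leb hF hh hC x)] with u hu
      have := (tendsto_const_nhds (x := h (τ u x))).sub hu
      rw [sub_self] at this
      have h9 := this.abs
      rw [abs_zero] at h9
      exact h9

/-- conditional expectation of a smoothed function -/
theorem condExp_smo (hF : IsFlow μ τ) {h : X → ℝ} (hh : Measurable h) {C : ℝ} (hC : ∀ x, |h x| ≤ C) {δ : ℝ}
    (hδ : 0 < δ) : μ[h | flowInv τ] =ᵐ[μ] μ[smo τ h δ | flowInv τ] := by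
  have hm := flowInv_le (mX := mX) τ
  refine ae_eq_condExp_of_forall_setIntegral_eq hm (int_bdd (smo_meas hF hh hδ) (smo_bdd hC hδ))
    (fun s _ _ => integrable_condExp.integrableOn) (fun s hs _ => ?_)
    stronglyMeasurable_condExp.aestronglyMeasurable
  rw [setIntegral_condExp hm (int_bdd hh hC) hs]
  have hsm : MeasurableSet s := hm s hs
  unfold smo
  rw [integral_const_mul]
  simp only [intervalIntegral.integral_of_le hδ.le]
  have hsw : ∫ x in s, (∫ u in Set.Ioc (0 : ℝ) δ, h (τ u x)) ∂μ =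
      ∫ u in Set.Ioc (0 : ℝ) δ, (∫ x in s, h (τ u x) ∂μ) := by
    apply integral_integral_swap
    refine Integrable.of_bound (C := C) ?_ (ae_of_all _ fun q => hC _)
    exact (hh.comp (hF.meas.comp measurable_swap)).aestronglyMeasurable
  rw [hsw]
  have hc : ∀ u, ∫ x in s, h (τ u x) ∂μ = ∫ x in s, h x ∂μ := by
    intro u
    rw [← integral_indicator hsm, ← integral_indicator hsm, ← int_comp hF (hh.indicator hsm) u]
    congr 1
    ext x
    have : (τ u x ∈ s) ↔ x ∈ s := by
      have := inv_set hs u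
      exact Set.ext_iff.1 this x
    by_cases hx : x ∈ s
    · rw [Set.indicator_of_mem hx, Set.indicator_of_mem (this.2 hx)]
    · rw [Set.indicator_of_notMem hx, Set.indicator_of_notMem (fun h => hx (this.1 h))]
  simp only [hc]
  rw [setIntegral_const]
  simp only [Real.volume_real_Ioc_of_le hδ.le, sub_zero, smul_eq_mul]
  field_simp

end basics

theorem flw (h1 : S_FLW1.{u}) (h2 : S_FLW2.{u}) (h3 : S_FLWB.{u}) : S_FLW.{u} := by
  intro p hp X mX μ _ τ g hF hg hgb
  obtain ⟨C', hC'⟩ := hgb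
  set C : ℝ := |C'| + 1 with hCdef
  have hC0 : 0 < C := by positivity
  have hC : ∀ x, |g x| ≤ C := fun x => (hC' x).trans ((le_abs_self _).trans (by linarith))
  obtain ⟨K, hK, hE⟩ := h2 p hp
  have hm := flowInv_le (mX := mX) τ
  -- the truncated conditional expectation
  set gb : X → ℝ := fun x => max (-C) (min C ((μ[g | flowInv τ]) x)) with hgb
  have hgbm : Measurable[flowInv τ] gb := by
    have : Measurable[flowInv τ] (μ[g | flowInv τ]) := stronglyMeasurable_condExp.measurable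
    exact measurable_const.max (measurable_const.min this)
  have hgbM : Measurable gb := hgbm.mono hm le_rfl
  have hgbb : ∀ x, |gb x| ≤ C := fun x => abs_le.2 ⟨le_max_left _ _, max_le (by linarith) (min_le_left _ _)⟩
  have hgbe : ∀ᵐ x ∂μ, gb x = (μ[g | flowInv τ]) x := by
    have : ∀ᵐ x ∂μ, |(μ[g | flowInv τ]) x| ≤ C := by
      have := ae_bdd_abs_condExp_of_ae_bdd_abs (m := flowInv τ) (μ := μ) (f := g) (R := C)
        (ae_of_all _ fun x => hC x)
      exact this
    filter_upwards [this] with x hx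
    rw [abs_le] at hx
    simp only [hgb]
    rw [min_eq_right hx.2, max_eq_right hx.1]
  have hpos : ∀ j : ℕ, 0 < 1 / ((j : ℝ) + 1) := fun j => by positivity
  set hs : ℕ → X → ℝ := fun j => smo τ g (1 / ((j : ℝ) + 1)) with hhs
  have hsm : ∀ j, Measurable (hs j) := fun j => smo_meas hF hg (hpos j)
  have hsb : ∀ j x, |hs j x| ≤ C := fun j x => smo_bdd hC (hpos j) x
  -- choice of `S j`
  have hS : ∀ j : ℕ, ∃ V : ℝ, 0 < V ∧ ∫ x, |smo τ (hs j) V x - gb x| ∂μ < 1 / ((j : ℝ) + 1) := by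
    intro j
    have ht := h3 X μ τ (hs j) hF (hsm j) ⟨C, hsb j⟩
    have hlim : Tendsto (fun n : ℕ => ∫ x, |smo τ (hs j) ((n : ℝ) + 1) x - gb x| ∂μ) atTop (nhds (∫ x : X, (0 : ℝ) ∂μ)) := by
      refine tendsto_integral_of_dominated_convergence (fun _ => 2 * C) ?_ (integrable_const _) ?_ ?_
      · intro n
        exact ((smo_meas hF (hsm j) (by positivity)).sub hgbM).abs.aestronglyMeasurable
      · intro n
        refine ae_of_all _ fun x => ?_
        have e1 := smo_bdd (τ := τ) (hsb j) (by positivity : 0 < (n : ℝ) + 1) x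
        have e2 := hgbb x
        rw [Real.norm_eq_abs, abs_abs]
        exact (abs_sub _ _).trans (by linarith)
      · filter_upwards [ht, hgbe, condExp_smo hF hg hC (hpos j)] with x hx hx2 hx3
        have e1 : Tendsto (fun n : ℕ => (n : ℝ) + 1) atTop atTop :=
          tendsto_atTop_add_const_right _ _ tendsto_natCast_atTop_atTop
        have e2 := (hx.comp e1).sub (tendsto_const_nhds (x := gb x))
        rw [hx2, hx3, sub_self] at e2
        simpa [Function.comp_def, hx2, hx3] using e2.abs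
    rw [integral_zero] at hlim
    obtain ⟨n, hn⟩ := (hlim.eventually (gt_mem_nhds (hpos j))).exists
    exact ⟨(n : ℝ) + 1, by positivity, hn⟩
  choose S hS0 hS1 using hS
  set E : ℕ → X → ℝ := fun j x => |g x - hs j x| + |smo τ (hs j) (S j) x - gb x| with hEdef
  have hEm : ∀ j, Measurable (E j) := fun j =>
    (hg.sub (hsm j)).abs.add (((smo_meas hF (hsm j) (hS0 j)).sub hgbM).abs)
  have hEb : ∀ j x, 0 ≤ E j x ∧ E j x ≤ 4 * C := by
    intro j x
    refine ⟨by positivity, ?_⟩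
    have e1 := hC x
    have e2 := hsb j x
    have e3 := smo_bdd (τ := τ) (hsb j) (hS0 j) x
    have e4 := hgbb x
    have e5 := abs_sub (g x) (hs j x)
    have e6 := abs_sub (smo τ (hs j) (S j) x) (gb x)
    simp only [hEdef]
    linarith
  have hEint : Tendsto (fun j => ∫ x, E j x ∂μ) atTop (nhds 0) := by
    have e0 : ∀ j, ∫ x, E j x ∂μ = (∫ x, |g x - hs j x| ∂μ) + ∫ x, |smo τ (hs j) (S j) x - gb x| ∂μ := by
      intro j
      refine integral_add ?_ ?_
      · refine int_bdd (hg.sub (hsm j)).abs (C := 2 * C) fun x => ?_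
        rw [abs_abs]
        exact (abs_sub _ _).trans (by linarith [hC x, hsb j x])
      · refine int_bdd (((smo_meas hF (hsm j) (hS0 j)).sub hgbM).abs) (C := 2 * C) fun x => ?_
        rw [abs_abs]
        exact (abs_sub _ _).trans (by linarith [smo_bdd (τ := τ) (hsb j) (hS0 j) x, hgbb x])
    simp only [e0]
    have e1 := smo_L1 hF hg hC (μ := μ)
    have e2 : Tendsto (fun j : ℕ => ∫ x, |smo τ (hs j) (S j) x - gb x| ∂μ) atTop (nhds 0) :=
      squeeze_zero (fun j => integral_nonneg fun x => abs_nonneg _) (fun j => (hS1 j).le)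
        tendsto_one_div_add_atTop_nhds_zero_nat
    have e3 := e1.add e2
    rw [add_zero] at e3
    exact e3
  -- normalized errors
  set D : ℝ := 4 * C with hD
  have hD0 : 0 < D := by positivity
  set e : ℕ → X → ℝ := fun j x => E j x / D with hedef
  have hem : ∀ j, Measurable (e j) := fun j => (hEm j).div_const _
  have heb : ∀ j x, 0 ≤ e j x ∧ e j x ≤ 1 := fun j x =>
    ⟨div_nonneg (hEb j x).1 hD0.le, by rw [hedef]; simp only; rw [div_le_one hD0]; exact (hEb j x).2⟩
  have heint : Tendsto (fun j => ∫ x, e j x ∂μ) atTop (nhds 0) := by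
    simp only [hedef, integral_div]
    simpa using hEint.div_const D
  -- the conditional expectations of the errors have infimum zero
  have hinf : ∀ᵐ x ∂μ, ∀ k : ℕ, ∃ j, (μ[e j | flowInv τ]) x < 1 / ((k : ℝ) + 1) := by
    rw [ae_all_iff]
    intro k
    have hk : 0 < 1 / ((k : ℝ) + 1) := hpos k
    have hmk : ∀ j, 1 / ((k : ℝ) + 1) * μ.real {x | 1 / ((k : ℝ) + 1) ≤ (μ[e j | flowInv τ]) x} ≤ ∫ x, e j x ∂μ := by
      intro j
      have e1 : 0 ≤ᵐ[μ] μ[e j | flowInv τ] := condExp_nonneg (ae_of_all _ fun x => (heb j x).1)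
      have e2 := mul_meas_ge_le_integral_of_nonneg e1 integrable_condExp (1 / ((k : ℝ) + 1))
      rwa [integral_condExp hm] at e2
    have hbad : μ.real {x | ¬ ∃ j, (μ[e j | flowInv τ]) x < 1 / ((k : ℝ) + 1)} ≤ 0 := by
      have e3 : ∀ j, 1 / ((k : ℝ) + 1) * μ.real {x | ¬ ∃ j, (μ[e j | flowInv τ]) x < 1 / ((k : ℝ) + 1)} ≤
          ∫ x, e j x ∂μ := by
        intro j
        refine le_trans (mul_le_mul_of_nonneg_left ?_ hk.le) (hmk j)
        refine measureReal_mono ?_ (measure_ne_top _ _)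
        intro x hx
        simp only [Set.mem_ofPred_eq, not_exists, not_lt] at hx ⊢
        exact hx j
      have e4 := ge_of_tendsto' heint e3
      nlinarith
    have : μ {x | ¬ ∃ j, (μ[e j | flowInv τ]) x < 1 / ((k : ℝ) + 1)} = 0 := by
      have e5 := le_antisymm hbad measureReal_nonneg
      rwa [measureReal_eq_zero_iff] at e5
    exact this
  have hco : ∀ᵐ x ∂μ, ∀ j : ℕ, ∀ B : ℕ → ℂ, (∀ n, ‖B n‖ ≤ 1) → ∀ᵐ a : ℝ ∂(volume.restrict (Set.Ioi (0 : ℝ))),
      Tendsto (fun N : ℕ => (1 / (N : ℂ)) * ∑ n ∈ Icc 1 N, B n *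
        (((hs j (τ (a * p n) x) - smo τ (hs j) (S j) (τ (a * p n) x) : ℝ)) : ℂ)) atTop (nhds 0) := by
    rw [ae_all_iff]
    intro j
    exact h1 p hp X μ τ g hF hg ⟨C, hC⟩ (1 / ((j : ℝ) + 1)) (S j) (hpos j) (hS0 j)
  have her : ∀ᵐ x ∂μ, ∀ j : ℕ, ∀ᵐ a : ℝ ∂(volume.restrict (Set.Ioi (0 : ℝ))), ∀ ε : ℝ, 0 < ε →
      ∀ᶠ N : ℕ in atTop, (1 / (N : ℝ)) * ∑ n ∈ Icc 1 N, e j (τ (a * p n) x) ≤
        ε + K ε * (μ[e j | flowInv τ]) x := by
    rw [ae_all_iff]
    intro j
    exact hE X μ τ (e j) hF (hem j) (heb j)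
  filter_upwards [hgbe, hinf, hco, her] with x hx1 hx2 hx3 hx4 B hB
  rw [← hx1]
  have hx3' := ae_all_iff.2 fun j => hx3 j B hB
  have hx4' := ae_all_iff.2 hx4
  filter_upwards [hx3', hx4'] with a ha3 ha4
  rw [Metric.tendsto_nhds]
  intro ε' hε'
  set ε : ℝ := ε' / (4 * D) with hε
  have hε0 : 0 < ε := by positivity
  obtain ⟨k, hk⟩ := exists_nat_one_div_lt (div_pos hε0 (hK ε))
  obtain ⟨j, hj⟩ := hx2 k
  have hj' : K ε * (μ[e j | flowInv τ]) x ≤ ε := by
    have : (μ[e j | flowInv τ]) x < ε / K ε := hj.trans hk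
    rw [lt_div_iff₀ (hK ε)] at this
    linarith
  have hev1 := (Metric.tendsto_nhds.1 (ha3 j)) (ε' / 4) (by positivity)
  filter_upwards [hev1, ha4 j ε hε0] with N hN1 hN2
  rw [dist_zero_right] at hN1 ⊢
  have hsplit : (1 / (N : ℂ)) * ∑ n ∈ Icc 1 N, B n * (((g (τ (a * p n) x) - gb x : ℝ)) : ℂ) =
      (1 / (N : ℂ)) * ∑ n ∈ Icc 1 N, B n *
        (((hs j (τ (a * p n) x) - smo τ (hs j) (S j) (τ (a * p n) x) : ℝ)) : ℂ) +
      (1 / (N : ℂ)) * ∑ n ∈ Icc 1 N, B n *
        ((((g (τ (a * p n) x) - hs j (τ (a * p n) x)) +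
          (smo τ (hs j) (S j) (τ (a * p n) x) - gb (τ (a * p n) x)) : ℝ)) : ℂ) := by
    rw [← mul_add, ← Finset.sum_add_distrib]
    congr 1
    refine Finset.sum_congr rfl fun n _ => ?_
    rw [inv_of_meas hgbm]
    push_cast
    ring
  rw [hsplit]
  refine (norm_add_le _ _).trans_lt ?_
  have hsec : ‖(1 / (N : ℂ)) * ∑ n ∈ Icc 1 N, B n *
        ((((g (τ (a * p n) x) - hs j (τ (a * p n) x)) +
          (smo τ (hs j) (S j) (τ (a * p n) x) - gb (τ (a * p n) x)) : ℝ)) : ℂ)‖ ≤
      (1 / (N : ℝ)) * ∑ n ∈ Icc 1 N, D * e j (τ (a * p n) x) := by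
    rw [norm_mul]
    have : ‖(1 / (N : ℂ))‖ = 1 / (N : ℝ) := by simp
    rw [this]
    refine mul_le_mul_of_nonneg_left ?_ (by positivity)
    refine (norm_sum_le _ _).trans (Finset.sum_le_sum fun n _ => ?_)
    rw [norm_mul, Complex.norm_real]
    have e1 : D * e j (τ (a * p n) x) = E j (τ (a * p n) x) := by
      simp only [hedef]; field_simp
    rw [e1]
    refine (mul_le_of_le_one_left (norm_nonneg _) (hB n)).trans ?_
    exact abs_add_le _ _
  rw [← Finset.mul_sum, mul_left_comm] at hsec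
  have hfin : D * (1 / (N : ℝ) * ∑ n ∈ Icc 1 N, e j (τ (a * p n) x)) ≤ D * (2 * ε) := by
    refine mul_le_mul_of_nonneg_left ?_ hD0.le
    linarith
  have : D * (2 * ε) = ε' / 2 := by rw [hε]; field_simp; norm_num
  linarith

end Pool.Agent.Y312.MC
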